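import Pool.Agent.V11249.NP.Reg
import Pool.Agent.V11249.NP.Fam

/-!
# Integers `m` with `m ^ 2 - 2` almost prime: regular windows in all short intervals

There are `r` and `c₁, c₂, K, κ > 0` such that in every interval `(X, X + Y]` with `X ^ θ ≤ Y ≤ X` at least `κ Y` of the
integers `n` are regular: every window `(a, b]` around `n` of length between `K log X` and `Y` contains between
`c₁ (b - a) / log X` and `c₂ (b - a) / log X` integers `m` for which `m ^ 2 - 2`
has at most `r` prime factors, all larger than `X ^ (1 / r)`; moreover, at all but boundedly many dyadic scales these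
`m` have a constant density around `n`, up to an error `δ`.
-/

set_option autoImplicit false

open Finset Filter Polynomial

namespace Pool.Agent.Results.MP_0b748d_nt.RegularWindows

/-- `|m ^ 2 - 2|` has at most `r` prime factors (with multiplicity), all of them larger than `z` -/
def AlmostPrime (r : ℕ) (z : ℝ) (m : ℕ) : Prop :=
  ((m : ℤ) ^ 2 - 2).natAbs.primeFactorsList.length ≤ r ∧ ∀ p : ℕ, p.Prime → (p : ℤ) ∣ (m : ℤ) ^ 2 - 2 → z < p

open Classical in
/-- the number of the `m` in `(a, b]` with almost prime values, all prime factors being larger than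
`X ^ (1 / r)` -/
noncomputable def cnt (r X a b : ℕ) : ℕ :=
  ((Ioc a b).filter (fun m => AlmostPrime r ((X : ℝ) ^ (1 / (r : ℝ))) m)).card

/-- all windows `(a, b]` around `n`, of length between `K log X` and `Y`, contain the right order of such `m` -/
def Regular (r : ℕ) (c₁ c₂ K : ℝ) (X Y n : ℕ) : Prop :=
  ∀ a b : ℕ, a ≤ n → n ≤ b → K * Real.log X ≤ (b : ℝ) - a → (b : ℝ) - a ≤ Y →
    c₁ * ((b : ℝ) - a) / Real.log X ≤ (cnt r X a b : ℝ) ∧ (cnt r X a b : ℝ) ≤ c₂ * ((b : ℝ) - a) / Real.log X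

/-- the density is constant on `[n - 2 ^ j, n + 2 ^ j]`, up to `δ` -/
def Constant (r : ℕ) (c₁ c₂ δ : ℝ) (X n j : ℕ) : Prop :=
  ∃ lam : ℝ, c₁ ≤ lam ∧ lam ≤ c₂ ∧ ∀ u v : ℕ, n ≤ u + 2 ^ j → u ≤ v → v ≤ n + 2 ^ j →
    |(cnt r X u v : ℝ) - lam * ((v : ℝ) - u) / Real.log X| ≤ δ * 2 ^ j / Real.log X

open Classical in
/-- the number of the scales `2 ^ j` between `log X` and `Y` at which the density is not constant -/
noncomputable def badScales (r : ℕ) (c₁ c₂ δ : ℝ) (X Y n : ℕ) : ℕ :=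
  ((range (Nat.log 2 Y + 1)).filter (fun j => Real.log X ≤ (2 : ℝ) ^ j ∧ ¬ Constant r c₁ c₂ δ X n j)).card

/-- the system -/
noncomputable def F : Fin 1 → ℤ[X] := fun i => Pool.Agent.TH464.PW.quad (![1] i) (![0] i) (![-2] i)

theorem sys : Pool.Agent.W123.RU.Poly.Sys F := by
  refine Pool.Agent.V11249.NP.sys_of ![1] ![0] ![-2] ?_ ?_ ?_ 2 3 ?_
  · intro i
    left
    fin_cases i
    refine ⟨by norm_num, ?_⟩
    rintro ⟨x, hx⟩
    have hx' : (0 : ℤ) ^ 2 - 4 * 1 * (-2) = x * x := hx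
    have h1 : x * x = 8 := by linarith
    have h2 : x ≤ 2 := by nlinarith
    have h3 : -2 ≤ x := by nlinarith
    interval_cases x <;> omega
  · intro i
    fin_cases i
    rfl
  · intro i j _ _ _
    exact Subsingleton.elim i j
  · decide

theorem ev (i : Fin 1) (m : ℕ) : (F i).eval (m : ℤ) = (m : ℤ) ^ 2 - 2 := by
  fin_cases i
  show (Pool.Agent.TH464.PW.quad (1) (0) (-2)).eval (m : ℤ) = _
  refine (Pool.Agent.TH464.PW.quad_eval _ _ _ _).trans ?_
  ring

theorem iff_almost (r : ℕ) (z : ℝ) (m : ℕ) : AlmostPrime r z m ↔ Pool.Agent.TH464.PW.Almost F r z m := by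
  unfold AlmostPrime Pool.Agent.TH464.PW.Almost
  rw [Fin.forall_fin_one, ev]

open Classical in
/-- **Regular windows.** For `0 < θ ≤ 1` there are `r` and `c₁, c₂, K, κ > 0` such that for every `δ > 0` there is `B`
such that for all large `X` and all `X ^ θ ≤ Y ≤ X`: at least `κ Y` of the `n` in `(X, X + Y]` are regular and have at
most `B` scales at which the density is not constant up to `δ`. -/
theorem result (θ : ℝ) (hθ : 0 < θ) (hθ1 : θ ≤ 1) :
    ∃ (r : ℕ) (c₁ c₂ K κ : ℝ), 0 < c₁ ∧ 0 < c₂ ∧ 0 < K ∧ 0 < κ ∧ ∀ δ : ℝ, 0 < δ → ∃ B : ℕ,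
      ∀ᶠ X : ℕ in atTop, ∀ Y : ℕ, (X : ℝ) ^ θ ≤ Y → Y ≤ X →
        κ * Y ≤ (((Ioc X (X + Y)).filter (fun n =>
          Regular r c₁ c₂ K X Y n ∧ badScales r c₁ c₂ δ X Y n ≤ B)).card : ℝ) := by
  have h := Pool.Agent.V11249.NP.reg_win (g := 1) (by norm_num) F sys (AlmostPrime )
    iff_almost θ hθ hθ1
  simp only [pow_one] at h
  exact h

end Pool.Agent.Results.MP_0b748d_nt.RegularWindows
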