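import Pool.Agent.Helper29.BE.PrimeAvg

/-!
# Prime values of shifted quadratic polynomials at arguments of the smallest possible size

Let `f_j(t) = a_j t ^ 2 + b_j t + e_j` (`j < r`) be fixed, `a_j ≥ 1`. For every set `A ⊆ [1, M]` with
`|A| ≥ δ M` and all `f_j(t)` odd for `t ∈ A`, and every `H ≥ M ^ 51` with `(log H) ^ r ≤ D |A|`: for at
least `c H ^ r` of the vectors `(h_1, ..., h_r)` of even numbers up to `H` there is ONE `t ∈ A` such that all
the numbers `f_j(t) + h_j` (sign `+`) and `h_j - f_j(t)` (sign `-`) are prime. The number of these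
vectors is at most `4 ^ r |A| (H / log H) ^ r`, so that the order `(log H) ^ r` of `M` is best possible.

The proof is the second moment method, with the sharp form of the upper bound sieve for prime pairs and
the moments of the singular factor of the starting library (`Pool.Agent.H197R2.PG`), in a form for
vectors (`Pool.Agent.Helper29.BE.main3`).
-/

set_option autoImplicit false

open Finset Filter Topology

namespace Pool.Agent.Results.MP_0b748d_nt.TinyArgumentsOnAverage

/-- The `r`-tuples of even numbers `1 ≤ h j ≤ H` for which there is one `t` in `A` such that, with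
`f j t = a j * t ^ 2 + b j * t + e j`, every `f j t + h j` (if `s j`) and every `h j - f j t > f j t`
(if not `s j`) is prime. -/
def tuples {r : ℕ} (a b e : Fin r → ℕ) (s : Fin r → Bool) (H : ℕ) (A : Finset ℕ) :
    Set (Fin r → ℕ) :=
  {h | (∀ j, 1 ≤ h j ∧ h j ≤ H ∧ Even (h j)) ∧ ∃ t ∈ A, ∀ j,
    if s j = true then (a j * t ^ 2 + b j * t + e j + h j).Prime
    else (2 * (a j * t ^ 2 + b j * t + e j) < h j ∧
      (h j - (a j * t ^ 2 + b j * t + e j)).Prime)}

lemma tuples_finite {r : ℕ} (a b e : Fin r → ℕ) (s : Fin r → Bool) (H : ℕ) (A : Finset ℕ) :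
    (tuples a b e s H A).Finite := by
  apply (Finset.finite_toSet (Fintype.piFinset (fun _ : Fin r => Icc 1 H))).subset
  rintro h ⟨h2, -⟩
  rw [mem_coe, Fintype.mem_piFinset]
  intro j
  rw [mem_Icc]
  exact ⟨(h2 j).1, (h2 j).2.1⟩

lemma dist_f (a b e t u : ℕ) : Nat.dist (a * t ^ 2 + b * t + e) (a * u ^ 2 + b * u + e) =
    Nat.dist t u * (a * (t + u) + b) := by
  have key : ∀ u k : ℕ, Nat.dist (a * (u + k) ^ 2 + b * (u + k) + e) (a * u ^ 2 + b * u + e) =
      Nat.dist (u + k) u * (a * (u + k + u) + b) := by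
    intro u k
    have e1 : a * (u + k) ^ 2 + b * (u + k) + e =
        (a * u ^ 2 + b * u + e) + k * (a * (u + k + u) + b) := by ring
    have e2 : Nat.dist (u + k) u = k := by
      unfold Nat.dist
      omega
    rw [e2, e1]
    unfold Nat.dist
    omega
  rcases le_total u t with h | h
  · obtain ⟨k, rfl⟩ := Nat.exists_eq_add_of_le h
    exact key u k
  · obtain ⟨k, rfl⟩ := Nat.exists_eq_add_of_le h
    rw [Nat.dist_comm, key t k, Nat.dist_comm (t + k) t, add_comm (t + k) t]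

open Pool.Agent.Helper29.BE Pool.Agent.H197R2.PG in
lemma gg_mul {x y : ℕ} (hx : x ≠ 0) (hy : y ≠ 0) : gg (x * y) ≤ gg x * gg y :=
  Pool.Agent.Helper403.B_mul_le hx hy

open Pool.Agent.Helper29.BE Pool.Agent.H197R2.PG in
theorem quad_avg (d : ℕ) (hd : 1 ≤ d) : ∃ K : ℝ, 0 < K ∧ ∀ a b e : ℕ, 1 ≤ a → ∀ (M : ℕ)
    (T : Finset ℕ), 1 ≤ M → T ⊆ Icc 1 M →
    ∑ z ∈ T.offDiag, gg (2 * Nat.dist (a * z.1 ^ 2 + b * z.1 + e) (a * z.2 ^ 2 + b * z.2 + e)) ^ d
      ≤ K * (2 + 2 * a + b) * #T * M := by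
  classical
  obtain ⟨C0, hC0, hE⟩ := euler_le
  set k : ℕ := 2 * d + 1 with hk
  set K : ℝ := (C0 * Real.log (k : ℕ)) ^ k with hK
  have hk3 : 3 ≤ k := by omega
  have hlk : 0 < Real.log (k : ℕ) := Real.log_pos (by exact_mod_cast (by omega : 1 < k))
  have hK0 : 0 < K := by positivity
  refine ⟨(3 / 2) ^ d * K, by positivity, ?_⟩
  intro a b e ha M T hM hT
  have hg1 : ∀ n : ℕ, 1 ≤ gg n := one_le_gg
  have hg0 : ∀ n : ℕ, 0 ≤ gg n := fun n => by linarith [one_le_gg n]
  have hmom : ∀ Y : ℕ, ∑ h ∈ Icc 1 Y, gg h ^ k ≤ Y * K := fun Y =>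
    (moment_le k Y).trans (mul_le_mul_of_nonneg_left (hE k Y hk3) (Nat.cast_nonneg _))
  -- termwise
  have hterm : ∀ z ∈ T.offDiag,
      gg (2 * Nat.dist (a * z.1 ^ 2 + b * z.1 + e) (a * z.2 ^ 2 + b * z.2 + e)) ^ d ≤
      (3 / 2) ^ d * (gg (Nat.dist z.1 z.2) ^ k + gg (a * (z.1 + z.2) + b) ^ k) := by
    intro z hz
    rw [mem_offDiag] at hz
    obtain ⟨h1, h2, h3⟩ := hz
    have h4 := mem_Icc.1 (hT h1)
    have hD : 0 < Nat.dist z.1 z.2 := Nat.dist_pos_of_ne h3
    have hS : 0 < a * (z.1 + z.2) + b := by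
      have : 0 < a * (z.1 + z.2) := Nat.mul_pos ha (by omega)
      omega
    rw [dist_f]
    set x := gg (Nat.dist z.1 z.2) with hx
    set y := gg (a * (z.1 + z.2) + b) with hy
    have hx1 : 1 ≤ x := hg1 _
    have hy1 : 1 ≤ y := hg1 _
    have h5 : gg (2 * (Nat.dist z.1 z.2 * (a * (z.1 + z.2) + b))) ≤ 3 / 2 * (x * y) := by
      refine (gg_two_mul_le _ (Nat.mul_pos hD hS)).trans ?_
      apply mul_le_mul_of_nonneg_left _ (by norm_num)
      exact gg_mul hD.ne' hS.ne'
    refine (pow_le_pow_left₀ (hg0 _) h5 d).trans ?_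
    rw [mul_pow, mul_pow]
    apply mul_le_mul_of_nonneg_left _ (by positivity)
    have h6 : x ^ (2 * d) ≤ x ^ k := pow_le_pow_right₀ hx1 (by omega)
    have h7 : y ^ (2 * d) ≤ y ^ k := pow_le_pow_right₀ hy1 (by omega)
    have h8 : x ^ (2 * d) = (x ^ d) ^ 2 := by rw [← pow_mul, mul_comm]
    have h9 : y ^ (2 * d) = (y ^ d) ^ 2 := by rw [← pow_mul, mul_comm]
    have h10 : 0 ≤ x ^ d := by positivity
    have h11 : 0 ≤ y ^ d := by positivity
    nlinarith [sq_nonneg (x ^ d - y ^ d)]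
  have hs1 : ∑ z ∈ T.offDiag, gg (Nat.dist z.1 z.2) ^ k ≤ 2 * #T * (M * K) := by
    refine (sum_dist_le T M hT (fun n => gg n ^ k) (fun n => pow_nonneg (hg0 n) k)).trans ?_
    exact mul_le_mul_of_nonneg_left (hmom M) (by positivity)
  have hs2 : ∑ z ∈ T.offDiag, gg (a * (z.1 + z.2) + b) ^ k ≤
      #T * (((2 * a * M + b : ℕ) : ℝ) * K) := by
    calc ∑ z ∈ T.offDiag, gg (a * (z.1 + z.2) + b) ^ k
        ≤ ∑ z ∈ T ×ˢ T, gg (a * (z.1 + z.2) + b) ^ k := by
          apply Finset.sum_le_sum_of_subset_of_nonneg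
          · intro z hz
            rw [mem_offDiag] at hz
            exact mem_product.2 ⟨hz.1, hz.2.1⟩
          · intro z _ _
            exact pow_nonneg (hg0 _) k
      _ = ∑ t ∈ T, ∑ u ∈ T, gg (a * (t + u) + b) ^ k := Finset.sum_product _ _ _
      _ ≤ ∑ _t ∈ T, ((2 * a * M + b : ℕ) : ℝ) * K := by
          apply Finset.sum_le_sum
          intro t ht
          refine le_trans ?_ (hmom (2 * a * M + b))
          have hinj : Set.InjOn (fun u => a * (t + u) + b) (T : Set ℕ) := by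
            intro u _ v _ huv
            simp only at huv
            have h1 : a * (t + u) = a * (t + v) := by omega
            have h2 := Nat.eq_of_mul_eq_mul_left (by omega : 0 < a) h1
            omega
          rw [← Finset.sum_image (f := fun n => gg n ^ k) hinj]
          apply Finset.sum_le_sum_of_subset_of_nonneg
          · intro n hn
            obtain ⟨u, hu, rfl⟩ := mem_image.1 hn
            have h1 := mem_Icc.1 (hT ht)
            have h2 := mem_Icc.1 (hT hu)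
            rw [mem_Icc]
            have h3 : 0 < a * (t + u) := Nat.mul_pos ha (by omega)
            have h4 : a * (t + u) ≤ a * (2 * M) := Nat.mul_le_mul_left a (by omega)
            have h5 : a * (2 * M) = 2 * a * M := by ring
            omega
          · intro n _ _
            exact pow_nonneg (hg0 _) k
      _ = #T * (((2 * a * M + b : ℕ) : ℝ) * K) := by rw [sum_const, nsmul_eq_mul]
  have hM1 : (1 : ℝ) ≤ M := by exact_mod_cast hM
  have hT0 : (0 : ℝ) ≤ #T := Nat.cast_nonneg _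
  have hb0 : (0 : ℝ) ≤ b := Nat.cast_nonneg _
  calc ∑ z ∈ T.offDiag,
        gg (2 * Nat.dist (a * z.1 ^ 2 + b * z.1 + e) (a * z.2 ^ 2 + b * z.2 + e)) ^ d
      ≤ ∑ z ∈ T.offDiag, (3 / 2) ^ d *
          (gg (Nat.dist z.1 z.2) ^ k + gg (a * (z.1 + z.2) + b) ^ k) := Finset.sum_le_sum hterm
    _ = (3 / 2) ^ d * (∑ z ∈ T.offDiag, gg (Nat.dist z.1 z.2) ^ k +
          ∑ z ∈ T.offDiag, gg (a * (z.1 + z.2) + b) ^ k) := by
        rw [← Finset.mul_sum, Finset.sum_add_distrib]
    _ ≤ (3 / 2) ^ d * (2 * #T * (M * K) + #T * (((2 * a * M + b : ℕ) : ℝ) * K)) := by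
        apply mul_le_mul_of_nonneg_left (add_le_add hs1 hs2) (by positivity)
    _ = (3 / 2) ^ d * K * #T * (2 * M + 2 * a * M + b) := by
        push_cast
        ring
    _ ≤ (3 / 2) ^ d * K * #T * ((2 + 2 * a + b) * M) := by
        apply mul_le_mul_of_nonneg_left _ (by positivity)
        nlinarith
    _ = _ := by ring

open Pool.Agent.Helper29.BE in
theorem lower (r : ℕ) (hr : 1 ≤ r) (a b e : Fin r → ℕ) (ha : ∀ j, 1 ≤ a j) (δ D : ℝ) (hδ : 0 < δ)
    (hD : 0 < D) : ∃ c : ℝ, 0 < c ∧ ∃ M₀ : ℕ, ∀ M : ℕ, M₀ ≤ M → ∀ s : Fin r → Bool,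
    ∀ A : Finset ℕ, A ⊆ Icc 1 M → (∀ t ∈ A, ∀ j, Odd (a j * t ^ 2 + b j * t + e j)) →
    δ * M ≤ #A → ∀ H : ℕ, M ^ 51 ≤ H → Real.log H ^ r ≤ D * #A →
    c * H ^ r ≤ ((tuples a b e s H A).ncard : ℝ) := by
  classical
  obtain ⟨K, hK, hq⟩ := quad_avg r hr
  set S : ℕ := ∑ j, (a j + b j + e j) with hS
  have hSj : ∀ j, a j + b j + e j ≤ S := fun j =>
    Finset.single_le_sum (f := fun j => a j + b j + e j) (fun _ _ => Nat.zero_le _) (mem_univ j)
  obtain ⟨c, hc, Y₀, h⟩ := main3 r hr (K * (2 + 2 * S + S) / δ) (by positivity) D hD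
  refine ⟨c, hc, Y₀ + S + 1, fun M hM s A hA hodd hAM H hH hHA => ?_⟩
  have hfM : ∀ t ∈ A, ∀ j, a j * t ^ 2 + b j * t + e j ≤ M ^ 3 := by
    intro t ht j
    have h1 := mem_Icc.1 (hA ht)
    calc a j * t ^ 2 + b j * t + e j ≤ a j * M ^ 2 + b j * M ^ 2 + e j * M ^ 2 := by
          have h2 : t ^ 2 ≤ M ^ 2 := Nat.pow_le_pow_left h1.2 2
          have h3 : t ≤ M ^ 2 := h1.2.trans (Nat.le_self_pow (by norm_num) M)
          have h4 : 1 ≤ M ^ 2 := Nat.one_le_pow _ _ (by omega)
          have h5 := Nat.mul_le_mul_left (a j) h2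
          have h6 := Nat.mul_le_mul_left (b j) h3
          have h7 := Nat.mul_le_mul_left (e j) h4
          omega
      _ = (a j + b j + e j) * M ^ 2 := by ring
      _ ≤ M * M ^ 2 := Nat.mul_le_mul_right _ ((hSj j).trans (by omega))
      _ = M ^ 3 := by ring
  have hM1 : 1 ≤ M := by omega
  have h1 := h (M ^ 3) (by
      have : M ≤ M ^ 3 := Nat.le_self_pow (by norm_num) M
      omega) H (by
      rw [← pow_mul]
      exact hH) A (fun j t => a j * t ^ 2 + b j * t + e j) s (by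
      intro j t _ u _ htu
      simp only at htu
      have h2 := dist_f (a j) (b j) (e j) t u
      rw [htu, Nat.dist_self] at h2
      rcases Nat.mul_eq_zero.1 h2.symm with h3 | h3
      · exact Nat.eq_of_dist_eq_zero h3
      · have h4 : a j * (t + u) = 0 := by omega
        rcases Nat.mul_eq_zero.1 h4 with h5 | h5
        · have := ha j
          omega
        · omega) (fun j t ht => ⟨hodd t ht j, hfM t ht j⟩) hHA (by
      intro j
      refine (hq (a j) (b j) (e j) (ha j) M A hM1 hA).trans ?_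
      have h2 : (M : ℝ) ≤ #A / δ := by
        rw [le_div_iff₀ hδ, mul_comm]
        exact hAM
      have h3 : (a j : ℝ) ≤ S := by
        exact_mod_cast (by have := hSj j; omega : a j ≤ S)
      have h4 : (b j : ℝ) ≤ S := by
        exact_mod_cast (by have := hSj j; omega : b j ≤ S)
      calc K * (2 + 2 * (a j : ℝ) + b j) * #A * M
          ≤ K * (2 + 2 * (S : ℝ) + S) * #A * (#A / δ) := by gcongr
        _ = K * (2 + 2 * (S : ℝ) + S) / δ * (#A : ℝ) ^ 2 := by ring)
  refine h1.trans ?_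
  apply Nat.cast_le.2
  rw [← Set.ncard_coe_finset]
  apply Set.ncard_le_ncard _ (tuples_finite a b e s H A)
  intro m hm
  rw [mem_coe] at hm
  unfold Sh2 at hm
  rw [mem_filter, Fintype.mem_piFinset] at hm
  obtain ⟨h2, t, ht, h3⟩ := hm
  refine ⟨fun j => ?_, t, ht, h3⟩
  have h4 := h2 j
  rw [mem_filter, mem_Icc] at h4
  exact ⟨h4.1.1, h4.1.2, h4.2⟩

lemma pi_upper : ∃ M₀ : ℕ, ∀ M : ℕ, M₀ ≤ M →
    (Nat.primeCounting (2 * M) : ℝ) ≤ 4 * (M / Real.log M) := by
  have h1 := Pool.Agent.TH110.Zig.pnt_window 1 2 1 (by norm_num) (by norm_num)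
  obtain ⟨M₀, h2⟩ := eventually_atTop.1 (tendsto_natCast_atTop_atTop.eventually h1)
  refine ⟨M₀, fun M hM => ?_⟩
  have h3 := h2 M hM
  have hM0 : (0 : ℝ) ≤ M := Nat.cast_nonneg _
  have a1 := h3 ((2 * M : ℕ) : ℝ) (by push_cast; linarith) (by push_cast; linarith)
  rw [Nat.floor_natCast] at a1
  have b1 := (abs_le.1 a1).2
  have e1 : ((2 * M : ℕ) : ℝ) / Real.log M = 2 * (M / Real.log M) := by
    push_cast
    ring
  rw [e1] at b1
  linarith

/-- the possible values of `h j` for a given value `p` of the polynomial -/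
noncomputable def AA (H p : ℕ) (b : Bool) : Finset ℕ :=
  (Icc 1 H).filter (fun h => if b = true then (p + h).Prime else (2 * p < h ∧ (h - p).Prime))

lemma AA_card {H p : ℕ} (hp : p ≤ H) (b : Bool) :
    #(AA H p b) ≤ Nat.primeCounting (2 * H) := by
  classical
  rw [Nat.primeCounting, Nat.primeCounting', Nat.count_eq_card_filter_range]
  rcases b with _ | _
  · apply Finset.card_le_card_of_injOn (fun h => h - p)
    · intro h hh
      rw [mem_coe] at hh
      unfold AA at hh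
      rw [mem_filter, mem_Icc, if_neg (by simp)] at hh
      rw [mem_coe, mem_filter, mem_range]
      exact ⟨by simp only; omega, hh.2.2⟩
    · intro h hh h' hh' he
      rw [mem_coe] at hh hh'
      unfold AA at hh hh'
      rw [mem_filter, mem_Icc, if_neg (by simp)] at hh hh'
      simp only at he
      omega
  · apply Finset.card_le_card_of_injOn (fun h => p + h)
    · intro h hh
      rw [mem_coe] at hh
      unfold AA at hh
      rw [mem_filter, mem_Icc, if_pos rfl] at hh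
      rw [mem_coe, mem_filter, mem_range]
      exact ⟨by simp only; omega, hh.2⟩
    · intro h hh h' hh' he
      simp only at he
      omega

theorem upper (r : ℕ) (a b e : Fin r → ℕ) : ∃ M₀ : ℕ, ∀ M : ℕ, M₀ ≤ M → ∀ s : Fin r → Bool,
    ∀ A : Finset ℕ, A ⊆ Icc 1 M → ∀ H : ℕ, M ^ 3 ≤ H →
    ((tuples a b e s H A).ncard : ℝ) ≤ 4 ^ r * #A * (H / Real.log H) ^ r := by
  classical
  obtain ⟨M₀, hM₀⟩ := pi_upper
  set S : ℕ := ∑ j, (a j + b j + e j) with hS
  have hSj : ∀ j, a j + b j + e j ≤ S := fun j =>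
    Finset.single_le_sum (f := fun j => a j + b j + e j) (fun _ _ => Nat.zero_le _) (mem_univ j)
  refine ⟨M₀ + S + 1, fun M hM s A hA H hMH => ?_⟩
  have hMM : M ≤ M ^ 3 := Nat.le_self_pow (by norm_num) M
  have a2 := hM₀ H (by omega)
  have hfM : ∀ t ∈ A, ∀ j, a j * t ^ 2 + b j * t + e j ≤ M ^ 3 := by
    intro t ht j
    have h1 := mem_Icc.1 (hA ht)
    calc a j * t ^ 2 + b j * t + e j ≤ a j * M ^ 2 + b j * M ^ 2 + e j * M ^ 2 := by
          have h2 : t ^ 2 ≤ M ^ 2 := Nat.pow_le_pow_left h1.2 2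
          have h3 : t ≤ M ^ 2 := h1.2.trans (Nat.le_self_pow (by norm_num) M)
          have h4 : 1 ≤ M ^ 2 := Nat.one_le_pow _ _ (by omega)
          have h5 := Nat.mul_le_mul_left (a j) h2
          have h6 := Nat.mul_le_mul_left (b j) h3
          have h7 := Nat.mul_le_mul_left (e j) h4
          omega
      _ = (a j + b j + e j) * M ^ 2 := by ring
      _ ≤ M * M ^ 2 := Nat.mul_le_mul_right _ ((hSj j).trans (by omega))
      _ = M ^ 3 := by ring
  set F : Finset (Fin r → ℕ) := A.biUnion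
    (fun t => Fintype.piFinset (fun j => AA H (a j * t ^ 2 + b j * t + e j) (s j))) with hF
  have hsub : tuples a b e s H A ⊆ (F : Set (Fin r → ℕ)) := by
    rintro h ⟨h2, t, ht, h3⟩
    rw [mem_coe, hF, mem_biUnion]
    refine ⟨t, ht, ?_⟩
    rw [Fintype.mem_piFinset]
    intro j
    unfold AA
    rw [mem_filter, mem_Icc]
    exact ⟨⟨(h2 j).1, (h2 j).2.1⟩, h3 j⟩
  have h1 : (tuples a b e s H A).ncard ≤ #A * Nat.primeCounting (2 * H) ^ r := by
    calc (tuples a b e s H A).ncard ≤ (F : Set (Fin r → ℕ)).ncard :=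
          Set.ncard_le_ncard hsub (Finset.finite_toSet F)
      _ = #F := Set.ncard_coe_finset F
      _ ≤ ∑ t ∈ A, #(Fintype.piFinset (fun j => AA H (a j * t ^ 2 + b j * t + e j) (s j))) :=
            card_biUnion_le
      _ ≤ ∑ _t ∈ A, Nat.primeCounting (2 * H) ^ r := by
          apply Finset.sum_le_sum
          intro t ht
          rw [Fintype.card_piFinset]
          calc ∏ j, #(AA H (a j * t ^ 2 + b j * t + e j) (s j)) ≤
                ∏ _j : Fin r, Nat.primeCounting (2 * H) :=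
                Finset.prod_le_prod' fun j _ => AA_card ((hfM t ht j).trans hMH) (s j)
            _ = _ := by rw [prod_const, card_univ, Fintype.card_fin]
      _ = _ := by rw [sum_const, smul_eq_mul]
  have h2 : ((tuples a b e s H A).ncard : ℝ) ≤
      #A * (Nat.primeCounting (2 * H) : ℝ) ^ r := by exact_mod_cast h1
  refine h2.trans ?_
  calc (#A : ℝ) * (Nat.primeCounting (2 * H) : ℝ) ^ r
      ≤ #A * (4 * (H / Real.log H)) ^ r := by
        apply mul_le_mul_of_nonneg_left _ (Nat.cast_nonneg _)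
        exact pow_le_pow_left₀ (Nat.cast_nonneg _) a2 r
    _ = _ := by
        rw [mul_pow]
        ring

/-- **Prime values of shifted quadratic polynomials at arguments of the smallest possible order.** Let
`r ≥ 1`, `f_j(t) = a_j t ^ 2 + b_j t + e_j` with `a_j ≥ 1` (`j < r`) and `δ, D > 0`. There are `c > 0` and
`M₀` such that for all `M ≥ M₀`, every vector of signs and every set `A ⊆ [1, M]`: (1) if all `f_j(t)`,
`t ∈ A`, are odd and `|A| ≥ δ M`, then for every `H ≥ M ^ 51` with `(log H) ^ r ≤ D |A|`, for at least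
`c H ^ r` of the vectors `(h_1, ..., h_r)` of even numbers up to `H` there is one `t ∈ A` such that all the
numbers `f_j(t) + h_j` (sign `+`) and `h_j - f_j(t) > f_j(t)` (sign `-`) are prime; (2) for every
`H ≥ M ^ 3` this holds for at most `4 ^ r |A| (H / log H) ^ r` vectors. -/
theorem result (r : ℕ) (hr : 1 ≤ r) (a b e : Fin r → ℕ) (ha : ∀ j, 1 ≤ a j) (δ D : ℝ) (hδ : 0 < δ)
    (hD : 0 < D) : ∃ c : ℝ, 0 < c ∧ ∃ M₀ : ℕ, ∀ M : ℕ, M₀ ≤ M → ∀ s : Fin r → Bool,
    ∀ A : Finset ℕ, A ⊆ Icc 1 M →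
      ((∀ t ∈ A, ∀ j, Odd (a j * t ^ 2 + b j * t + e j)) → δ * M ≤ #A →
        ∀ H : ℕ, M ^ 51 ≤ H → Real.log H ^ r ≤ D * #A →
        c * H ^ r ≤ ((tuples a b e s H A).ncard : ℝ)) ∧
      ∀ H : ℕ, M ^ 3 ≤ H →
        ((tuples a b e s H A).ncard : ℝ) ≤ 4 ^ r * #A * (H / Real.log H) ^ r := by
  obtain ⟨c, hc, M₁, h1⟩ := lower r hr a b e ha δ D hδ hD
  obtain ⟨M₂, h2⟩ := upper r a b e
  exact ⟨c, hc, M₁ + M₂, fun M hM s A hA => ⟨fun hodd hAM H hH hHA =>
    h1 M (by omega) s A hA hodd hAM H hH hHA, fun H hH => h2 M (by omega) s A hA H hH⟩⟩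

end Pool.Agent.Results.MP_0b748d_nt.TinyArgumentsOnAverage
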